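import Mathlib

namespace Pool.Agent.Results.MP_6957f6_co.Disproof

/-- The extension of a morphism `f` (given by the images of the letters) to finite words. -/
def app {A B : Type} (f : A → List B) (w : List A) : List B := w.flatMap f

/-- The factor of length `n` of the infinite word `u` starting at position `i`. -/
def slice {A : Type} (u : ℕ → A) (i n : ℕ) : List A := (List.range n).map (fun k => u (i + k))

/-- The language of an infinite word: the set of its finite factors. -/
def Lang {A : Type} (u : ℕ → A) : Set (List A) := {w | ∃ i n, w = slice u i n}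

/-- `f (u) = u` as infinite words: the image of every prefix of `u` is a prefix of `u`, and the
images of the prefixes of `u` have unbounded length (so `f (u)` is infinite). -/
def IsFixedPoint {A : Type} (f : A → List A) (u : ℕ → A) : Prop :=
  (∀ n, ∃ m, app f (slice u 0 n) = slice u 0 m) ∧
    (∀ m, ∃ n, m ≤ (app f (slice u 0 n)).length)

/-- `f` is primitive: for some `k ≥ 1` every letter occurs in `f ^ k (a)` for every letter `a`. -/
def IsPrimitive {A : Type} (f : A → List A) : Prop :=
  ∃ k, 1 ≤ k ∧ ∀ a b : A, b ∈ (app f)^[k] [a]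

/-- An infinite word is palindromic if infinitely many distinct palindromes occur in it. -/
def IsPalindromic {A : Type} (u : ℕ → A) : Prop :=
  {w | w ∈ Lang u ∧ w.reverse = w}.Infinite

/-- Class `P`: there is a palindrome `p` such that for every letter `a`, `p` is a prefix of
`f (a)` and `f (a) p` is a palindrome. -/
def ClassP {A : Type} (f : A → List A) : Prop :=
  ∃ p : List A, p.reverse = p ∧ ∀ a, p <+: f a ∧ (f a ++ p).reverse = f a ++ p

/-- Conjugate morphisms. -/
def Conjugate {A : Type} (f g : A → List A) : Prop :=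
  (∃ w : List A, ∀ a, f a ++ w = w ++ g a) ∨ (∃ w : List A, ∀ a, g a ++ w = w ++ f a)

/-- The morphism `0 ↦ 01`, `1 ↦ 02222`, `2 ↦ 0102222`. -/
def phi : Fin 3 → List (Fin 3) := ![[0, 1], [0, 2, 2, 2, 2], [0, 1, 0, 2, 2, 2, 2]]

/-! ### Basic facts on slices -/

section Basic

variable {A B : Type}

@[simp] lemma slice_length (u : ℕ → A) (i n : ℕ) : (slice u i n).length = n := by
  simp [slice]

lemma slice_getElem (u : ℕ → A) (i n k : ℕ) (h : k < (slice u i n).length) :
    (slice u i n)[k] = u (i + k) := by
  simp [slice]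

lemma slice_add (u : ℕ → A) (i n m : ℕ) :
    slice u i (n + m) = slice u i n ++ slice u (i + n) m := by
  apply List.ext_getElem
  · simp
  · intro k h1 h2
    rw [slice_getElem]
    by_cases hk : k < n
    · rw [List.getElem_append_left (by simpa using hk), slice_getElem]
    · rw [List.getElem_append_right (by simpa using hk), slice_getElem]
      simp only [slice_length]
      congr 1
      omega

lemma slice_zero (u : ℕ → A) (i : ℕ) : slice u i 0 = [] := by simp [slice]

lemma slice_one (u : ℕ → A) (i : ℕ) : slice u i 1 = [u i] := by simp [slice]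

lemma slice_succ (u : ℕ → A) (i n : ℕ) : slice u i (n + 1) = slice u i n ++ [u (i + n)] := by
  rw [slice_add, slice_one]

lemma app_append (f : A → List B) (v w : List A) : app f (v ++ w) = app f v ++ app f w := by
  simp [app]

lemma app_cons (f : A → List B) (a : A) (w : List A) : app f (a :: w) = f a ++ app f w := by
  simp [app]

lemma app_nil (f : A → List B) : app f [] = [] := by simp [app]

lemma app_singleton (f : A → List B) (a : A) : app f [a] = f a := by simp [app]

/-- a list which is an infix of a slice is a slice -/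
lemma mem_Lang_of_append {u : ℕ → A} {a w b : List A} (h : a ++ w ++ b ∈ Lang u) :
    w ∈ Lang u := by
  obtain ⟨i, n, h⟩ := h
  refine ⟨i + a.length, w.length, ?_⟩
  have hn : n = a.length + w.length + b.length := by
    have := congrArg List.length h
    simp at this
    omega
  subst hn
  rw [slice_add, slice_add] at h
  have h1 := List.append_inj_left h (by simp)
  exact List.append_inj_right h1 (by simp)

lemma mem_Lang_of_infix {u : ℕ → A} {w v : List A} (h : w <:+: v) (hv : v ∈ Lang u) :
    w ∈ Lang u := by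
  obtain ⟨a, b, rfl⟩ := h
  exact mem_Lang_of_append hv

/-- image of a factor by a morphism having `v` as a fixed point -/
lemma app_mem_Lang {f : A → List A} {v : ℕ → A} (hf : IsFixedPoint f v) {w : List A}
    (hw : w ∈ Lang v) : app f w ∈ Lang v := by
  obtain ⟨i, n, rfl⟩ := hw
  obtain ⟨m, hm⟩ := hf.1 (i + n)
  rw [slice_add, app_append] at hm
  have : slice v (0 + i) n = slice v i n := by simp
  rw [this] at hm
  refine mem_Lang_of_append (a := app f (slice v 0 i)) (b := []) ?_
  rw [List.append_nil, hm]
  exact ⟨0, m, rfl⟩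

end Basic


/-! ### Fixed points of prolongable morphisms -/

section Limit

variable {A : Type}

/-- iterates of `f` on the letter `a` -/
def iter (f : A → List A) (a : A) (n : ℕ) : List A := (app f)^[n] [a]

/-- the limit of the iterates -/
def limWord (f : A → List A) (a : A) (k : ℕ) : A := (iter f a (k + 1)).getD k a

lemma iter_succ (f : A → List A) (a : A) (n : ℕ) : iter f a (n + 1) = app f (iter f a n) := by
  simp [iter, Function.iterate_succ_apply']

lemma app_prefix (f : A → List A) {v w : List A} (h : v <+: w) : app f v <+: app f w := by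
  obtain ⟨t, rfl⟩ := h
  exact ⟨app f t, by rw [app_append]⟩

lemma iter_prefix_succ {f : A → List A} {a : A} (h : [a] <+: f a) (n : ℕ) :
    iter f a n <+: iter f a (n + 1) := by
  induction n with
  | zero => simpa [iter, app] using h
  | succ n ih => rw [iter_succ, iter_succ f a (n + 1)]; exact app_prefix f ih

lemma iter_prefix {f : A → List A} {a : A} (h : [a] <+: f a) {n m : ℕ} (hnm : n ≤ m) :
    iter f a n <+: iter f a m := by
  induction m, hnm using Nat.le_induction with
  | base => exact List.prefix_refl _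
  | succ m _ ih => exact ih.trans (iter_prefix_succ h m)

lemma length_app_ge {B : Type} {f : A → List B} (h2 : ∀ b, f b ≠ []) (w : List A) :
    w.length ≤ (app f w).length := by
  induction w with
  | nil => simp
  | cons a w ih =>
    rw [app_cons, List.length_append, List.length_cons]
    have : 1 ≤ (f a).length := List.length_pos_iff.mpr (h2 a)
    omega

lemma length_iter {f : A → List A} {a : A} {t : List A} (ht : t ≠ []) (h : f a = a :: t)
    (h2 : ∀ b, f b ≠ []) (n : ℕ) : n + 1 ≤ (iter f a n).length := by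
  have hpre : [a] <+: f a := ⟨t, by simp [h]⟩
  induction n with
  | zero => simp [iter]
  | succ n ih =>
    have h0 : [a] <+: iter f a n := by
      have := iter_prefix hpre (Nat.zero_le n)
      simpa [iter] using this
    obtain ⟨w, hw⟩ := h0
    rw [iter_succ, ← hw, app_append, app_singleton, h]
    have h3 := length_app_ge h2 w
    have h4 : 1 ≤ t.length := List.length_pos_iff.mpr ht
    rw [← hw] at ih
    simp at ih ⊢
    omega

lemma limWord_eq {f : A → List A} {a : A} {t : List A} (ht : t ≠ []) (h : f a = a :: t)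
    (h2 : ∀ b, f b ≠ []) {n k : ℕ} (hk : k < (iter f a n).length) :
    (iter f a n)[k] = limWord f a k := by
  have hpre : [a] <+: f a := ⟨t, by simp [h]⟩
  have hk' : k < (iter f a (k + 1)).length := by
    have := length_iter ht h h2 (k + 1)
    omega
  rw [limWord, List.getD_eq_getElem _ _ hk']
  rcases le_total n (k + 1) with hle | hle
  · exact (iter_prefix hpre hle).getElem hk
  · exact ((iter_prefix hpre hle).getElem hk').symm

lemma slice_limWord {f : A → List A} {a : A} {t : List A} (ht : t ≠ []) (h : f a = a :: t)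
    (h2 : ∀ b, f b ≠ []) (n : ℕ) :
    slice (limWord f a) 0 (iter f a n).length = iter f a n := by
  apply List.ext_getElem
  · simp
  · intro k h1 h3
    rw [slice_getElem, Nat.zero_add, limWord_eq ht h h2 h3]

lemma slice_of_prefix {u : ℕ → A} {l : List A} {m : ℕ} (h : l <+: slice u 0 m) :
    l = slice u 0 l.length := by
  obtain ⟨t, ht⟩ := h
  have hm : m = l.length + t.length := by
    have := congrArg List.length ht
    simp at this
    omega
  subst hm
  rw [slice_add] at ht
  exact List.append_inj_left ht (by simp)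

lemma slice_prefix (u : ℕ → A) {n m : ℕ} (h : n ≤ m) : slice u 0 n <+: slice u 0 m := by
  obtain ⟨k, rfl⟩ := Nat.exists_eq_add_of_le h
  exact ⟨slice u (0 + n) k, by rw [slice_add]⟩

lemma limWord_fixed {f : A → List A} {a : A} {t : List A} (ht : t ≠ []) (h : f a = a :: t)
    (h2 : ∀ b, f b ≠ []) : IsFixedPoint f (limWord f a) := by
  constructor
  · intro n
    have hn : n ≤ (iter f a n).length := by
      have := length_iter ht h h2 n
      omega
    have h1 : slice (limWord f a) 0 n <+: iter f a n := by
      rw [← slice_limWord ht h h2 n]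
      exact slice_prefix _ hn
    have h3 := app_prefix f h1
    rw [← iter_succ, ← slice_limWord ht h h2 (n + 1)] at h3
    exact ⟨_, slice_of_prefix h3⟩
  · intro m
    refine ⟨(iter f a m).length, ?_⟩
    rw [slice_limWord ht h h2, ← iter_succ]
    have := length_iter ht h h2 (m + 1)
    omega

end Limit

/-! ### The binary word `c` and the ternary word `u` -/

/-- the auxiliary binary morphism (`false = a`, `true = b`): `a ↦ abaaa`, `b ↦ aabaaa` -/
def gam : Bool → List Bool
  | false => [false, true, false, false, false]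
  | true => [false, false, true, false, false, false]

/-- the coding `a ↦ 0102222`, `b ↦ 010102222` -/
def iot : Bool → List (Fin 3)
  | false => [0, 1, 0, 2, 2, 2, 2]
  | true => [0, 1, 0, 1, 0, 2, 2, 2, 2]

lemma gam_ne (b : Bool) : gam b ≠ [] := by cases b <;> simp [gam]

lemma phi_ne (b : Fin 3) : phi b ≠ [] := by
  fin_cases b <;> simp [phi]

/-- the binary word -/
def cc : ℕ → Bool := limWord gam false

/-- the ternary word, fixed by `phi` -/
def uu : ℕ → Fin 3 := limWord phi 0

lemma cc_fixed : IsFixedPoint gam cc :=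
  limWord_fixed (t := [true, false, false, false]) (by simp) rfl gam_ne

lemma uu_fixed : IsFixedPoint phi uu :=
  limWord_fixed (t := [1]) (by simp) rfl phi_ne

lemma phi_iot (b : Bool) : app phi (iot b) = app iot (gam b) := by
  cases b <;> decide

lemma app_phi_iot (w : List Bool) : app phi (app iot w) = app iot (app gam w) := by
  induction w with
  | nil => rfl
  | cons b w ih => rw [app_cons, app_append, ih, phi_iot, app_cons, app_append]

lemma iter_phi (n : ℕ) : iter phi 0 (n + 2) = app iot (iter gam false n) := by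
  induction n with
  | zero => decide
  | succ n ih =>
    rw [iter_succ gam, ← app_phi_iot, ← ih, iter_succ phi 0 (n + 2)]

/-- `uu` is the image of `cc` by `iot` -/
lemma uu_iot (m : ℕ) : app iot (slice cc 0 m) = slice uu 0 (app iot (slice cc 0 m)).length := by
  have hlen : m ≤ (iter gam false m).length := by
    have := length_iter (f := gam) (a := false) (t := [true, false, false, false]) (by simp) rfl gam_ne m
    omega
  have h1 : slice cc 0 m <+: iter gam false m := by
    rw [cc, ← slice_limWord (f := gam) (a := false) (t := [true, false, false, false]) (by simp) rfl gam_ne m]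
    exact slice_prefix _ hlen
  obtain ⟨t, ht⟩ := h1
  have h2 : app iot (slice cc 0 m) <+: iter phi 0 (m + 2) := by
    rw [iter_phi, ← ht, app_append]
    exact ⟨_, rfl⟩
  rw [← slice_limWord (f := phi) (a := 0) (t := [1]) (by simp) rfl phi_ne (m + 2)] at h2
  exact slice_of_prefix h2


section Blocks

variable {B : Type}

/-- block positions -/
def pos (f : Bool → List B) (m : ℕ) : ℕ := (app f (slice cc 0 m)).length

lemma pos_zero (f : Bool → List B) : pos f 0 = 0 := by simp [pos, slice_zero, app_nil]

lemma pos_succ (f : Bool → List B) (m : ℕ) : pos f (m + 1) = pos f m + (f (cc m)).length := by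
  simp [pos, slice_succ, app_append, app_singleton]

lemma slice_block {f : Bool → List B} {u : ℕ → B}
    (h : ∀ m, app f (slice cc 0 m) = slice u 0 (pos f m)) (m q : ℕ) :
    app f (slice cc m q) = slice u (pos f m) (pos f (m + q) - pos f m) := by
  have h1 := h (m + q)
  have h2 : pos f (m + q) = pos f m + (app f (slice cc m q)).length := by
    simp [pos, slice_add, app_append]
  rw [slice_add, app_append, h m, h2, slice_add] at h1
  have h3 := List.append_inj_right h1 (by simp)
  simp only [Nat.zero_add] at h3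
  rw [h3, h2, Nat.add_sub_cancel_left]

lemma block_getElem {f : Bool → List B} {u : ℕ → B}
    (h : ∀ m, app f (slice cc 0 m) = slice u 0 (pos f m)) (m j : ℕ)
    (hj : j < (f (cc m)).length) : u (pos f m + j) = (f (cc m))[j] := by
  have h1 := slice_block h m 1
  rw [slice_one, app_singleton, pos_succ, Nat.add_sub_cancel_left] at h1
  rw [List.getElem_of_eq h1, slice_getElem]

end Blocks

lemma gam_blocks (m : ℕ) : app gam (slice cc 0 m) = slice cc 0 (pos gam m) := by
  obtain ⟨k, hk⟩ := cc_fixed.1 m
  rw [hk]
  congr 1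
  simp [pos, hk]

lemma iot_blocks (m : ℕ) : app iot (slice cc 0 m) = slice uu 0 (pos iot m) := uu_iot m

lemma gam_length (b : Bool) : (gam b).length = 5 + b.toNat := by cases b <;> rfl

lemma iot_length (b : Bool) : (iot b).length = 7 + 2 * b.toNat := by cases b <;> rfl

/-- position of the `m`-th letter `b` in `cc` -/
def bet (m : ℕ) : ℕ := pos gam m + 1 + (cc m).toNat

/-- position of the end of the `m`-th block in `uu` -/
def bet' (m : ℕ) : ℕ := pos iot m + 6 + 2 * (cc m).toNat

lemma bet_succ (m : ℕ) : bet (m + 1) = bet m + (5 + 1 * (cc (m + 1)).toNat) := by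
  simp only [bet, pos_succ, gam_length]
  omega

lemma bet'_succ (m : ℕ) : bet' (m + 1) = bet' m + (7 + 2 * (cc (m + 1)).toNat) := by
  simp only [bet', pos_succ, iot_length]
  omega

lemma cc_zero : cc 0 = false := by
  have := gam_blocks 1
  have h1 := block_getElem (f := gam) (u := cc) gam_blocks 0 0 (by rw [gam_length]; omega)
  rw [pos_zero] at h1
  cases hc : cc 0
  · rfl
  · have h2 := block_getElem (f := gam) (u := cc) gam_blocks 0 0 (by rw [gam_length]; omega)
    rw [pos_zero, Nat.zero_add] at h2
    simp [hc, gam] at h2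

lemma exists_block (f : Bool → List (Fin 3)) (hf : ∀ b, f b ≠ []) (k : ℕ) :
    ∃ m, pos f m ≤ k ∧ k < pos f (m + 1) := by
  induction k with
  | zero =>
    refine ⟨0, by simp [pos_zero], ?_⟩
    rw [pos_succ, pos_zero]
    have := List.length_pos_iff.mpr (hf (cc 0))
    omega
  | succ k ih =>
    obtain ⟨m, h1, h2⟩ := ih
    by_cases h : k + 1 < pos f (m + 1)
    · exact ⟨m, by omega, h⟩
    · refine ⟨m + 1, by omega, ?_⟩
      rw [pos_succ f (m + 1)]
      have := List.length_pos_iff.mpr (hf (cc (m + 1)))
      omega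

lemma exists_block' (f : Bool → List Bool) (hf : ∀ b, f b ≠ []) (k : ℕ) :
    ∃ m, pos f m ≤ k ∧ k < pos f (m + 1) := by
  induction k with
  | zero =>
    refine ⟨0, by simp [pos_zero], ?_⟩
    rw [pos_succ, pos_zero]
    have := List.length_pos_iff.mpr (hf (cc 0))
    omega
  | succ k ih =>
    obtain ⟨m, h1, h2⟩ := ih
    by_cases h : k + 1 < pos f (m + 1)
    · exact ⟨m, by omega, h⟩
    · refine ⟨m + 1, by omega, ?_⟩
      rw [pos_succ f (m + 1)]
      have := List.length_pos_iff.mpr (hf (cc (m + 1)))
      omega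

lemma gam_getElem : ∀ (b : Bool) (h : 1 + b.toNat < (gam b).length),
    (gam b)[1 + b.toNat] = true := by
  intro b
  cases b <;> intro h <;> rfl

lemma cc_true_iff (k : ℕ) : cc k = true ↔ ∃ m, bet m = k := by
  constructor
  · intro hk
    obtain ⟨m, h1, h2⟩ := exists_block' gam gam_ne k
    refine ⟨m, ?_⟩
    obtain ⟨j, rfl⟩ := Nat.exists_eq_add_of_le h1
    rw [pos_succ] at h2
    have hj : j < (gam (cc m)).length := by omega
    rw [block_getElem gam_blocks m j hj] at hk
    simp only [bet]
    cases hc : cc m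
    · simp only [hc] at hk hj
      simp only [gam, List.length_cons, List.length_nil] at hj
      interval_cases j <;> simp_all [gam]
    · simp only [hc] at hk hj
      simp only [gam, List.length_cons, List.length_nil] at hj
      interval_cases j <;> simp_all [gam]
  · rintro ⟨m, rfl⟩
    have hj : 1 + (cc m).toNat < (gam (cc m)).length := by
      rw [gam_length]; omega
    rw [bet, Nat.add_assoc, block_getElem gam_blocks m _ hj]
    exact gam_getElem _ _


/-! ### Transfer of periods -/

/-- Let `β` enumerate the set `I`, with `β (m+1) - β m = d + e * [c (m+1)]`.  If the indicator of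
`I` has period `p` on a window of length at least `4 p - 2` which meets `I`, then `c` has a period
`q` on a window of length `4 q - 2`, and `p` is the length of the corresponding `q` gaps. -/
lemma period_transfer {c : ℕ → Bool} {β : ℕ → ℕ} {d e : ℕ} (hd : 2 ≤ d) (he : 1 ≤ e)
    (hβ : ∀ m, β (m + 1) = β m + (d + e * (c (m + 1)).toNat)) {I : ℕ → Prop}
    (hI : ∀ k, I k ↔ ∃ m, β m = k) {i n p : ℕ} (hp : 1 ≤ p) (hn : 4 * p ≤ n + 2)
    (hper : ∀ k, i ≤ k → k + p < i + n → (I k ↔ I (k + p)))
    (hex : ∃ k, i ≤ k ∧ k < i + n ∧ I k) :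
    ∃ m q, 1 ≤ q ∧ i ≤ β m ∧ β m < i + p ∧ β (m + q) = β m + p ∧
      (∀ k, m + 1 ≤ k → k + q < m + 1 + (4 * q - 2) → c k = c (k + q)) ∧
      (∀ j, j < q → β (m + j) < i + p) ∧
      (∀ k, i ≤ k → k < i + p → I k → ∃ j, j < q ∧ β (m + j) = k) := by
  classical
  have hmono : StrictMono β := strictMono_nat_of_lt_succ (by intro m; rw [hβ]; omega)
  obtain ⟨k0, hk0, hmin⟩ : ∃ k0, (i ≤ k0 ∧ k0 < i + n ∧ I k0) ∧
      ∀ k, i ≤ k → k < k0 → ¬ I k := by
    refine ⟨Nat.find hex, Nat.find_spec hex, ?_⟩
    intro k h1 h2 h3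
    have h4 := (Nat.find_spec hex).2.1
    exact Nat.find_min hex h2 ⟨h1, by omega, h3⟩
  obtain ⟨h01, h02, h03⟩ := hk0
  have hlt : k0 < i + p := by
    by_contra hcon
    push Not at hcon
    have h1 := (hper (k0 - p) (by omega) (by omega)).2 (by
      rwa [Nat.sub_add_cancel (by omega)])
    exact hmin (k0 - p) (by omega) (by omega) h1
  obtain ⟨m, hm⟩ := (hI k0).1 h03
  have hIm : I (β m + p) := by
    have := (hper (β m) (by omega) (by omega)).1 (by rw [hm]; exact h03)
    exact this
  obtain ⟨m1, hm1⟩ := (hI _).1 hIm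
  have hm1' : m < m1 := by
    apply hmono.lt_iff_lt.1
    omega
  obtain ⟨q, rfl⟩ := Nat.exists_eq_add_of_le hm1'.le
  have hq : 1 ≤ q := by omega
  -- the shift property
  have hshift : ∀ j, β (m + j) + p < i + n → β (m + j + q) = β (m + j) + p := by
    intro j
    induction j with
    | zero => intro _; simpa using hm1
    | succ j ih =>
      intro hj
      have hb := hβ (m + j)
      have ih' := ih (by rw [← Nat.add_assoc, hb] at hj; omega)
      have h1 : I (β (m + (j + 1)) + p) := by
        refine (hper _ ?_ hj).1 ((hI _).2 ⟨_, rfl⟩)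
        have := hmono.monotone (show m ≤ m + (j + 1) by omega)
        omega
      obtain ⟨m', hm'⟩ := (hI _).1 h1
      have h2 : m + j + q < m' := by
        apply hmono.lt_iff_lt.1
        rw [hm', ih']
        have := hmono (show m + j < m + (j + 1) by omega)
        omega
      rcases Nat.lt_or_ge (m + (j + 1) + q) m' with h3 | h3
      · exfalso
        have h4 := hmono h3
        have h5 := hmono (show m + j + q < m + (j + 1) + q by omega)
        have h6 : I (β (m + (j + 1) + q) - p) := by
          refine (hper _ ?_ ?_).2 ?_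
          · have := hmono.monotone (show m ≤ m + j by omega)
            omega
          · omega
          · rw [Nat.sub_add_cancel (by omega)]
            exact (hI _).2 ⟨_, rfl⟩
        obtain ⟨m'', hm''⟩ := (hI _).1 h6
        have h7 : m + j < m'' := hmono.lt_iff_lt.1 (by omega)
        have h8 : m'' < m + (j + 1) := hmono.lt_iff_lt.1 (by omega)
        omega
      · have : m' = m + (j + 1) + q := by omega
        rw [← this, hm']
  have hin : ∀ j, j < q → β (m + j) < i + p := by
    intro j hj
    by_contra hcon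
    push Not at hcon
    have h1 := hmono (show m + j < m + q by omega)
    have h2 : I (β (m + j) - p) := by
      refine (hper _ (by omega) (by omega)).2 ?_
      rw [Nat.sub_add_cancel (by omega)]
      exact (hI _).2 ⟨_, rfl⟩
    exact hmin _ (by omega) (by omega) h2
  have hfar : β (m + (3 * q - 2)) + p < i + n := by
    rcases Nat.lt_or_ge q 2 with h | h
    · have hq1 : q = 1 := by omega
      subst hq1
      have h1 := hβ m
      simp only [show 3 * 1 - 2 = 1 from rfl]
      omega
    · obtain ⟨r, rfl⟩ := Nat.exists_eq_add_of_le h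
      have h1 := hβ (m + r)
      have h2 := hin (r + 1) (by omega)
      have h3 := hshift r (by rw [← Nat.add_assoc, h1] at h2; omega)
      have h4 := hshift (r + (2 + r)) (by
        rw [← Nat.add_assoc, h3]; rw [← Nat.add_assoc, h1] at h2; omega)
      rw [show m + (3 * (2 + r) - 2) = m + (r + (2 + r)) + (2 + r) by omega, h4,
        ← Nat.add_assoc, h3]
      rw [← Nat.add_assoc, h1] at h2
      omega
  refine ⟨m, q, hq, by omega, by omega, hm1, ?_, hin, ?_⟩
  · intro k h1 h2
    obtain ⟨j, rfl⟩ := Nat.exists_eq_add_of_le h1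
    have h3 := hmono.monotone (show m + (j + 1) ≤ m + (3 * q - 2) by omega)
    have h4 := hmono (show m + j < m + (j + 1) by omega)
    have h5 := hshift j (by omega)
    have h6 := hshift (j + 1) (by omega)
    have h7 := hβ (m + j)
    have h8 := hβ (m + j + q)
    rw [show m + (j + 1) = m + j + 1 by omega] at h6
    rw [show m + j + 1 + q = m + j + q + 1 by omega] at h6
    have h9 : e * (c (m + j + 1)).toNat = e * (c (m + j + q + 1)).toNat := by omega
    have h10 := Nat.eq_of_mul_eq_mul_left (by omega) h9
    rw [show m + 1 + j = m + j + 1 by omega, show m + j + 1 + q = m + j + q + 1 by omega]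
    revert h10
    cases c (m + j + 1) <;> cases c (m + j + q + 1) <;> simp
  · intro k h1 h2 h3
    obtain ⟨m', hm'⟩ := (hI k).1 h3
    have h4 : m ≤ m' := by
      by_contra hcon
      push Not at hcon
      have := hmono hcon
      exact hmin k h1 (by omega) h3
    obtain ⟨j, rfl⟩ := Nat.exists_eq_add_of_le h4
    refine ⟨j, ?_, hm'⟩
    by_contra hcon
    push Not at hcon
    have := hmono.monotone (show m + q ≤ m + j by omega)
    omega


/-- `(A₀,B₀) = (1,0)`, `(Aₙ₊₁,Bₙ₊₁) = (5 Aₙ + Bₙ, Aₙ)` -/
def AB : ℕ → ℕ × ℕ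
  | 0 => (1, 0)
  | n + 1 => (5 * (AB n).1 + (AB n).2, (AB n).1)

/-- number of letters `b` in a window of `cc` -/
def cnt (i n : ℕ) : ℕ := ∑ k ∈ Finset.range n, (cc (i + k)).toNat

lemma bet_add (m q : ℕ) : bet (m + q) = bet m + (5 * q + cnt (m + 1) q) := by
  induction q with
  | zero => simp [cnt]
  | succ q ih =>
    rw [← Nat.add_assoc, bet_succ, ih, cnt, cnt, Finset.sum_range_succ,
      show m + 1 + q = m + q + 1 by omega]
    omega

lemma bet'_add (m q : ℕ) : bet' (m + q) = bet' m + (7 * q + 2 * cnt (m + 1) q) := by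
  induction q with
  | zero => simp [cnt]
  | succ q ih =>
    rw [← Nat.add_assoc, bet'_succ, ih, cnt, cnt, Finset.sum_range_succ,
      show m + 1 + q = m + q + 1 by omega]
    omega

lemma window {β : ℕ → ℕ} {D : ℕ} (h0 : β 0 < D) (hgap : ∀ m, β (m + 1) ≤ β m + D)
    (hmono : StrictMono β) (i : ℕ) : ∃ m, i ≤ β m ∧ β m < i + D := by
  classical
  have hex : ∃ m, i ≤ β m := ⟨i, hmono.id_le i⟩
  refine ⟨Nat.find hex, Nat.find_spec hex, ?_⟩
  rcases Nat.eq_zero_or_pos (Nat.find hex) with h | h
  · rw [h]; omega
  · obtain ⟨r, hr⟩ : ∃ r, Nat.find hex = r + 1 := ⟨Nat.find hex - 1, by omega⟩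
    have h1 := Nat.find_min hex (show r < Nat.find hex by omega)
    rw [hr]
    have := hgap r
    omega

lemma bet_mono : StrictMono bet := strictMono_nat_of_lt_succ (by intro m; rw [bet_succ]; omega)

lemma bet'_mono : StrictMono bet' :=
  strictMono_nat_of_lt_succ (by intro m; rw [bet'_succ]; omega)

lemma toNat_le (b : Bool) : b.toNat ≤ 1 := by cases b <;> simp

lemma bet_window (i : ℕ) : ∃ m, i ≤ bet m ∧ bet m < i + 6 := by
  apply window _ _ bet_mono
  · simp [bet, pos_zero, cc_zero]
  · intro m
    rw [bet_succ]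
    have := toNat_le (cc (m + 1))
    omega

lemma bet'_window (i : ℕ) : ∃ m, i ≤ bet' m ∧ bet' m < i + 9 := by
  apply window _ _ bet'_mono
  · simp [bet', pos_zero, cc_zero]
  · intro m
    rw [bet'_succ]
    have := toNat_le (cc (m + 1))
    omega

lemma cc_period : ∀ p, 1 ≤ p → ∀ i n, 4 * p ≤ n + 2 →
    (∀ k, i ≤ k → k + p < i + n → cc k = cc (k + p)) →
    ∃ ν, p = (AB ν).1 ∧ cnt i p = (AB ν).2 := by
  intro p
  induction p using Nat.strong_induction_on with
  | _ p ih =>
    intro hp i n hn hper
    by_cases hex : ∃ k, i ≤ k ∧ k < i + n ∧ cc k = true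
    · obtain ⟨m, q, hq, h1, h2, h3, h4, h5, h6⟩ :=
        period_transfer (c := cc) (β := bet) (d := 5) (e := 1) (by norm_num) le_rfl bet_succ
          (I := fun k => cc k = true) cc_true_iff hp hn
          (by intro k hk1 hk2; simp only [hper k hk1 hk2]) hex
      have h7 := bet_add m q
      obtain ⟨ν, hν1, hν2⟩ := ih q (by omega) hq (m + 1) (4 * q - 2) (by omega) h4
      refine ⟨ν + 1, ?_, ?_⟩
      · simp only [AB]
        omega
      · simp only [AB]
        rw [← hν1]
        have hfil : (Finset.range p).filter (fun k => cc (i + k) = true)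
            = (Finset.range q).image (fun j => bet (m + j) - i) := by
          ext k
          simp only [Finset.mem_filter, Finset.mem_range, Finset.mem_image]
          constructor
          · rintro ⟨hk1, hk2⟩
            obtain ⟨j, hj1, hj2⟩ := h6 (i + k) (by omega) (by omega) hk2
            exact ⟨j, hj1, by omega⟩
          · rintro ⟨j, hj1, rfl⟩
            have hj2 := h5 j hj1
            have hj3 := bet_mono.monotone (show m ≤ m + j by omega)
            refine ⟨by omega, ?_⟩
            rw [show i + (bet (m + j) - i) = bet (m + j) by omega]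
            exact (cc_true_iff _).2 ⟨_, rfl⟩
        have hcard : ((Finset.range p).filter (fun k => cc (i + k) = true)).card = q := by
          rw [hfil, Finset.card_image_of_injOn]
          · simp
          · intro a _ b _ hab
            have ha := bet_mono.monotone (show m ≤ m + a by omega)
            have hb := bet_mono.monotone (show m ≤ m + b by omega)
            have : bet (m + a) = bet (m + b) := by
              simp only at hab
              omega
            have := bet_mono.injective this
            omega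
        rw [cnt, ← hcard, Finset.card_filter]
        apply Finset.sum_congr rfl
        intro k _
        cases cc (i + k) <;> simp
    · have hn6 : n < 6 := by
        by_contra hcon
        obtain ⟨m, h1, h2⟩ := bet_window i
        exact hex ⟨bet m, h1, by omega, (cc_true_iff _).2 ⟨_, rfl⟩⟩
      have hp1 : p = 1 := by omega
      subst hp1
      refine ⟨0, rfl, ?_⟩
      have : cc i = false := by
        cases hc : cc i
        · rfl
        · exact absurd ⟨i, le_rfl, by omega, hc⟩ hex
      simp [cnt, this, AB]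


/-! ### Fourth powers in `uu` -/

lemma iot_ne (b : Bool) : iot b ≠ [] := by cases b <;> simp [iot]

lemma uu_block (m j : ℕ) (hj : j < (iot (cc m)).length) :
    uu (pos iot m + j) = (iot (cc m)).getD j 0 := by
  rw [block_getElem iot_blocks m j hj, List.getD_eq_getElem _ _ hj]

lemma bet'_add_one (m : ℕ) : bet' m + 1 = pos iot (m + 1) := by
  rw [bet', pos_succ, iot_length]
  omega

lemma iot_last : ∀ b : Bool, (iot b).getD (6 + 2 * b.toNat) 0 = 2 := by decide

lemma iot_first : ∀ b : Bool, (iot b).getD 0 0 = 0 := by decide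

lemma iot_pair : ∀ b : Bool, ∀ j < 9, j < 6 + 2 * b.toNat →
    ¬ ((iot b).getD j 0 = 2 ∧ (iot b).getD (j + 1) 0 = 0) := by decide

lemma uu_marker (k : ℕ) : (uu k = 2 ∧ uu (k + 1) = 0) ↔ ∃ m, bet' m = k := by
  constructor
  · rintro ⟨h1, h2⟩
    obtain ⟨m, h3, h4⟩ := exists_block iot iot_ne k
    refine ⟨m, ?_⟩
    obtain ⟨j, rfl⟩ := Nat.exists_eq_add_of_le h3
    rw [pos_succ, iot_length] at h4
    have hle := toNat_le (cc m)
    by_contra hcon
    have hj : j < 6 + 2 * (cc m).toNat := by
      simp only [bet'] at hcon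
      omega
    rw [uu_block m j (by rw [iot_length]; omega)] at h1
    rw [Nat.add_assoc, uu_block m (j + 1) (by rw [iot_length]; omega)] at h2
    exact iot_pair (cc m) j (by omega) hj ⟨h1, h2⟩
  · rintro ⟨m, rfl⟩
    constructor
    · rw [bet', Nat.add_assoc, uu_block m _ (by rw [iot_length]; omega)]
      exact iot_last _
    · rw [bet'_add_one]
      have := uu_block (m + 1) 0 (by rw [iot_length]; omega)
      rw [Nat.add_zero] at this
      rw [this]
      exact iot_first _

lemma iot_power_aux : ∀ b : Bool, ∀ p ∈ Finset.range 3, ∀ o ∈ Finset.range 6, 1 ≤ p →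
    o + 4 * p ≤ (iot b).length →
    (∀ k ∈ Finset.range (3 * p), (iot b).getD (o + k) 0 = (iot b).getD (o + k + p) 0) →
    p = 1 ∧ (iot b).getD o 0 = 2 := by decide

lemma iot_power (b : Bool) (p : ℕ) (hp : p < 3) (o : ℕ) (ho : o < 6) (h1 : 1 ≤ p)
    (h2 : o + 4 * p ≤ (iot b).length)
    (h3 : ∀ k < 3 * p, (iot b).getD (o + k) 0 = (iot b).getD (o + k + p) 0) :
    p = 1 ∧ (iot b).getD o 0 = 2 :=
  iot_power_aux b p (Finset.mem_range.2 hp) o (Finset.mem_range.2 ho) h1 h2
    (fun k hk => h3 k (Finset.mem_range.1 hk))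

lemma count_iot (s q : ℕ) :
    (app iot (slice cc s q)).count 0 = 2 * q + cnt s q ∧
    (app iot (slice cc s q)).count 1 = q + cnt s q ∧
    (app iot (slice cc s q)).count 2 = 4 * q := by
  induction q with
  | zero => simp [slice_zero, app_nil, cnt]
  | succ q ih =>
    obtain ⟨h0, h1, h2⟩ := ih
    rw [slice_succ, app_append, app_singleton, List.count_append, List.count_append,
      List.count_append, h0, h1, h2, cnt, cnt, Finset.sum_range_succ]
    have e0 : ∀ b : Bool, (iot b).count 0 = 2 + b.toNat := by decide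
    have e1 : ∀ b : Bool, (iot b).count 1 = 1 + b.toNat := by decide
    have e2 : ∀ b : Bool, (iot b).count 2 = 4 := by decide
    rw [e0, e1, e2]
    refine ⟨by omega, by omega, by omega⟩

/-- The letter counts of a word whose fourth power occurs in `uu`. -/
lemma power_lemma {x : List (Fin 3)} (hx : x ≠ []) (h : x ++ x ++ x ++ x ∈ Lang uu) :
    (x.count 0 = 0 ∧ x.count 1 = 0 ∧ x.count 2 = 1) ∨
    ∃ ν, x.count 0 = 2 * (AB ν).1 + (AB ν).2 ∧ x.count 1 = (AB ν).1 + (AB ν).2 ∧
      x.count 2 = 4 * (AB ν).1 := by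
  obtain ⟨i, n, h⟩ := h
  obtain ⟨p, hp⟩ : ∃ p, p = x.length := ⟨_, rfl⟩
  have hp1 : 1 ≤ p := by
    have := List.length_pos_iff.mpr hx
    omega
  have hn : n = p + p + p + p := by
    have := congrArg List.length h
    simp only [List.length_append, slice_length] at this
    omega
  subst hn
  have h' := h
  rw [slice_add, slice_add, slice_add] at h
  have h3 := List.append_inj_right h (by simp; omega)
  have h012 := List.append_inj_left h (by simp; omega)
  have h2 := List.append_inj_right h012 (by simp; omega)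
  have h01 := List.append_inj_left h012 (by simp; omega)
  have h1 := List.append_inj_right h01 (by simp; omega)
  have h0 := List.append_inj_left h01 (by simp; omega)
  have hs1 : slice uu i (p + p + p) = x ++ x ++ x := by
    rw [slice_add, slice_add]
    rw [← h0, ← h1, ← h2]
  have hs2 : slice uu (i + p) (p + p + p) = x ++ x ++ x := by
    rw [slice_add, slice_add, ← h1]
    have e1 : i + p + p = i + (p + p) := by omega
    have e2 : i + p + (p + p) = i + (p + p + p) := by omega
    rw [e1, e2, ← h2, ← h3]
  have hper : ∀ k, i ≤ k → k < i + (p + p + p) → uu k = uu (k + p) := by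
    intro k hk1 hk2
    obtain ⟨j, rfl⟩ := Nat.exists_eq_add_of_le hk1
    have hs := hs1.trans hs2.symm
    have hj1 : j < (slice uu i (p + p + p)).length := by simp; omega
    have := List.getElem_of_eq hs hj1
    rw [slice_getElem, slice_getElem] at this
    rw [this]
    congr 1
    omega
  by_cases hex : ∃ k, i ≤ k ∧ k < i + (4 * p - 1) ∧ (uu k = 2 ∧ uu (k + 1) = 0)
  · right
    obtain ⟨m, q, hq, g1, g2, g3, g4, -, -⟩ :=
      period_transfer (c := cc) (β := bet') (d := 7) (e := 2) (by norm_num) (by norm_num)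
        bet'_succ (I := fun k => uu k = 2 ∧ uu (k + 1) = 0) uu_marker hp1 (i := i)
        (n := 4 * p - 1) (by omega)
        (by
          intro k hk1 hk2
          have a1 := hper k hk1 (by omega)
          have a2 := hper (k + 1) (by omega) (by omega)
          simp only [a1, a2, show k + 1 + p = k + p + 1 by omega]) hex
    obtain ⟨ν, hν1, hν2⟩ := cc_period q hq (m + 1) (4 * q - 2) (by omega) g4
    refine ⟨ν, ?_⟩
    obtain ⟨r, hr⟩ : ∃ r, bet' m + 1 = i + r := ⟨bet' m + 1 - i, by omega⟩
    have hrp : r ≤ p := by omega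
    have hcount : ∀ a : Fin 3, x.count a = (slice uu (i + r) p).count a := by
      intro a
      have b1 : slice uu (i + r) p = slice uu (i + r) (p - r) ++ slice uu (i + p) r := by
        have : p = (p - r) + r := by omega
        conv_lhs => rw [this]
        rw [slice_add]
        congr 2
        omega
      have b2 : x = slice uu i r ++ slice uu (i + r) (p - r) := by
        rw [← slice_add, show r + (p - r) = p by omega]
        exact h0
      have b3 : x = slice uu (i + p) r ++ slice uu (i + p + r) (p - r) := by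
        rw [← slice_add, show r + (p - r) = p by omega]
        exact h1
      have b4 : slice uu i r = slice uu (i + p) r :=
        List.append_inj_left (b2.symm.trans b3) (by simp)
      rw [b1, List.count_append]
      conv_lhs => rw [b2, List.count_append, b4]
      omega
    have hsl : slice uu (i + r) p = app iot (slice cc (m + 1) q) := by
      rw [slice_block iot_blocks, ← hr, ← bet'_add_one m]
      congr 1
      rw [show m + 1 + q = m + q + 1 by omega, ← bet'_add_one (m + q), g3]
      omega
    obtain ⟨c0, c1, c2⟩ := count_iot (m + 1) q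
    rw [hcount 0, hcount 1, hcount 2, hsl, c0, c1, c2, hν2, hν1]
    exact ⟨rfl, rfl, rfl⟩
  · left
    obtain ⟨m, g1, g2⟩ := exists_block iot iot_ne i
    have g3 : i + 4 * p ≤ pos iot (m + 1) := by
      by_contra hcon
      exact hex ⟨bet' m, by have := bet'_add_one m; omega, by have := bet'_add_one m; omega,
        (uu_marker _).2 ⟨m, rfl⟩⟩
    obtain ⟨o, rfl⟩ := Nat.exists_eq_add_of_le g1
    rw [pos_succ, iot_length] at g3
    have hle := toNat_le (cc m)
    have hpow := iot_power (cc m) p (by omega) o (by omega) hp1 (by rw [iot_length]; omega)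
      (by
        intro k hk
        have a1 := hper (pos iot m + o + k) (by omega) (by omega)
        rw [Nat.add_assoc, uu_block m (o + k) (by rw [iot_length]; omega),
          Nat.add_assoc, uu_block m (o + k + p) (by rw [iot_length]; omega)] at a1
        exact a1)
    obtain ⟨hp2, hp3⟩ := hpow
    subst hp2
    rw [← uu_block m o (by rw [iot_length]; omega)] at hp3
    rw [slice_one, hp3] at h0
    rw [h0]
    decide


/-! ### Arithmetic of the sequence `AB` -/

lemma AB_pos (n : ℕ) : 1 ≤ (AB n).1 := by
  induction n with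
  | zero => simp [AB]
  | succ n ih => simp only [AB]; omega

lemma AB_mono : StrictMono (fun n => (AB n).1) :=
  strictMono_nat_of_lt_succ (by intro n; have := AB_pos n; simp only [AB]; omega)

lemma AB_cases (n : ℕ) : ((AB n).1 = 1 ∧ (AB n).2 = 0) ∨ (1 ≤ (AB n).2 ∧ 5 * (AB n).2 ≤ (AB n).1) := by
  cases n with
  | zero => left; simp [AB]
  | succ n => right; have := AB_pos n; simp only [AB]; omega

lemma AB_parity (n : ℕ) : ¬ ((AB n).1 % 2 = 0 ∧ (AB n).2 % 2 = 0) := by
  induction n with
  | zero => simp [AB]
  | succ n ih => simp only [AB]; omega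

/-! ### Letter counts -/

lemma count_app (f : Fin 3 → List (Fin 3)) (w : List (Fin 3)) (a : Fin 3) :
    (app f w).count a =
      w.count 0 * (f 0).count a + w.count 1 * (f 1).count a + w.count 2 * (f 2).count a := by
  induction w with
  | nil => simp [app_nil]
  | cons b w ih =>
    rw [app_cons, List.count_append, ih]
    fin_cases b <;> simp <;> ring

lemma length_eq_count (l : List (Fin 3)) : l.length = l.count 0 + l.count 1 + l.count 2 := by
  induction l with
  | nil => rfl
  | cons b w ih =>
    rw [List.length_cons, ih]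
    fin_cases b <;> simp <;> omega

lemma eq_singleton_of_count {l : List (Fin 3)} {a : Fin 3} (h1 : l.length = 1)
    (h2 : l.count a = 1) : l = [a] := by
  obtain ⟨b, rfl⟩ := List.length_eq_one_iff.1 h1
  have : a ∈ [b] := List.count_pos_iff.1 (by omega)
  simp at this
  rw [this]

lemma palindrome_count {l : List (Fin 3)} (h : l.reverse = l) :
    ¬ (l.count 0 % 2 = 1 ∧ l.count 1 % 2 = 1) := by
  have hp := List.Palindrome.of_reverse_eq h
  clear h
  induction hp with
  | nil => simp
  | singleton x => fin_cases x <;> simp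
  | @cons_concat x l _ ih =>
    fin_cases x <;> simp [List.count_append] <;> omega

/-- the words `phi ^ n (2)` -/
def X (n : ℕ) : List (Fin 3) := (app phi)^[n] [2]

lemma X_succ (n : ℕ) : X (n + 1) = app phi (X n) := by
  simp [X, Function.iterate_succ_apply']

lemma two_mem : [2, 2, 2, 2] ∈ Lang uu := by
  have h := iot_blocks 1
  rw [slice_one, app_singleton, cc_zero] at h
  refine mem_Lang_of_append (a := [0, 1, 0]) (b := []) ?_
  exact ⟨0, _, h⟩

lemma X_power (n : ℕ) : X n ++ X n ++ X n ++ X n ∈ Lang uu := by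
  induction n with
  | zero => exact two_mem
  | succ n ih =>
    have := app_mem_Lang uu_fixed ih
    rw [app_append, app_append, app_append, ← X_succ] at this
    exact this

lemma X_count_succ (n : ℕ) :
    (X (n + 1)).count 0 = (X n).count 0 + (X n).count 1 + 2 * (X n).count 2 ∧
    (X (n + 1)).count 1 = (X n).count 0 + (X n).count 2 ∧
    (X (n + 1)).count 2 = 4 * (X n).count 1 + 4 * (X n).count 2 := by
  rw [X_succ, count_app, count_app, count_app]
  have h00 : (phi 0).count 0 = 1 := by decide
  have h01 : (phi 0).count 1 = 1 := by decide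
  have h02 : (phi 0).count 2 = 0 := by decide
  have h10 : (phi 1).count 0 = 1 := by decide
  have h11 : (phi 1).count 1 = 0 := by decide
  have h12 : (phi 1).count 2 = 4 := by decide
  have h20 : (phi 2).count 0 = 2 := by decide
  have h21 : (phi 2).count 1 = 1 := by decide
  have h22 : (phi 2).count 2 = 4 := by decide
  rw [h00, h01, h02, h10, h11, h12, h20, h21, h22]
  refine ⟨by omega, by omega, by omega⟩

lemma X_counts :
    ((X 1).count 0 = 2 ∧ (X 1).count 1 = 1 ∧ (X 1).count 2 = 4) ∧
    ((X 2).count 0 = 11 ∧ (X 2).count 1 = 6 ∧ (X 2).count 2 = 20) ∧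
    ((X 3).count 0 = 57 ∧ (X 3).count 1 = 31 ∧ (X 3).count 2 = 104) := by
  have h0 : (X 0).count 0 = 0 ∧ (X 0).count 1 = 0 ∧ (X 0).count 2 = 1 := by
    simp [X]
  have h1 := X_count_succ 0
  have h2 := X_count_succ 1
  have h3 := X_count_succ 2
  simp only [Nat.zero_add, Nat.reduceAdd] at h1 h2 h3
  omega

/-! Pure arithmetic steps used in the classification. -/

lemma arith_idx {α β γ : ℕ} (h1 : 5 * (AB α).1 ≤ (AB β).1)
    (h2 : (AB γ).1 = 5 * (AB β).1 + (AB α).1) : β = α + 1 := by
  have hα := AB_pos α
  have hαβ : α < β := by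
    apply AB_mono.lt_iff_lt.1
    change (AB α).1 < (AB β).1
    omega
  obtain ⟨β', rfl⟩ : ∃ β', β = β' + 1 := ⟨β - 1, by omega⟩
  have hle : (AB α).1 ≤ (AB β').1 := AB_mono.monotone (show α ≤ β' by omega)
  have hA2 : (AB (β' + 1 + 1)).1 = 5 * (AB (β' + 1)).1 + (AB β').1 := rfl
  have h3 : β' + 1 < γ := by
    apply AB_mono.lt_iff_lt.1
    change (AB (β' + 1)).1 < (AB γ).1
    omega
  have h4 : γ ≤ β' + 1 + 1 := by
    apply AB_mono.le_iff_le.1
    change (AB γ).1 ≤ (AB (β' + 1 + 1)).1
    omega
  have hγ : γ = β' + 1 + 1 := by omega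
  subst hγ
  have hαβ' : α = β' := by
    apply AB_mono.injective
    change (AB α).1 = (AB β').1
    omega
  rw [hαβ']

lemma arith_zero {A B x2 y2 : ℕ} (hAB : (A = 1 ∧ B = 0) ∨ (1 ≤ B ∧ 5 * B ≤ A))
    (e12 : 4 * A = 2 * x2 + y2) (e22 : 4 * (5 * A + B) = 11 * x2 + 6 * y2) : False := by
  omega

lemma arith_id {A B x0 x1 x2 y0 y1 y2 : ℕ} (hAB : (A = 1 ∧ B = 0) ∨ (1 ≤ B ∧ 5 * B ≤ A))
    (e10 : 2 * A + B = 2 * x0 + y0) (e11 : A + B = 2 * x1 + y1)
    (e12 : 4 * A = 2 * x2 + y2 + 4)
    (e20 : 2 * (5 * A + B) + A = 11 * x0 + 6 * y0)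
    (e21 : (5 * A + B) + A = 11 * x1 + 6 * y1)
    (e22 : 4 * (5 * A + B) = 11 * x2 + 6 * y2 + 20) :
    x0 = 1 ∧ x1 = 0 ∧ x2 = 0 ∧ y0 = 0 ∧ y1 = 1 ∧ y2 = 0 := by
  have h : A = 1 ∧ B = 0 := by
    rcases hAB with h | ⟨h1, h2⟩
    · exact h
    · exfalso
      clear e10 e11 e20 e21
      omega
  obtain ⟨rfl, rfl⟩ := h
  omega

lemma arith_bounds {A B x2 y2 C : ℕ}
    (e12 : 4 * A = 2 * x2 + y2 + 4 * (4 * C))
    (e22 : 4 * (5 * A + B) = 11 * x2 + 6 * y2 + 20 * (4 * C)) :
    4 * C + B ≤ A ∧ A ≤ 2 * B + 4 * C := by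
  omega

lemma arith_idx2 {α δ : ℕ} (h1 : 4 * (AB δ).1 + (AB α).2 ≤ (AB α).1)
    (h2 : (AB α).1 ≤ 2 * (AB α).2 + 4 * (AB δ).1) : α = δ + 1 := by
  have hδ := AB_pos δ
  have hα1 : α ≠ 0 := by
    rintro rfl
    simp only [AB] at h1
    omega
  obtain ⟨α', rfl⟩ : ∃ α', α = α' + 1 := ⟨α - 1, by omega⟩
  have hA : (AB (α' + 1)).1 = 5 * (AB α').1 + (AB α').2 := rfl
  have hB : (AB (α' + 1)).2 = (AB α').1 := rfl
  rw [hA, hB] at h1 h2
  have hα'c := AB_cases α'
  rcases lt_trichotomy δ α' with h | h | h
  · exfalso
    obtain ⟨α'', rfl⟩ : ∃ α'', α' = α'' + 1 := ⟨α' - 1, by omega⟩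
    have g1 : (AB δ).1 ≤ (AB α'').1 := AB_mono.monotone (show δ ≤ α'' by omega)
    have g3 : (AB (α'' + 1)).2 = (AB α'').1 := rfl
    omega
  · rw [h]
  · exfalso
    have g1 : (AB (α' + 1)).1 ≤ (AB δ).1 := AB_mono.monotone (show α' + 1 ≤ δ by omega)
    omega

lemma arith_final {C D x0 x1 y0 y1 : ℕ}
    (e10 : 2 * (5 * C + D) + C = 2 * x0 + y0 + 4 * (2 * C + D))
    (e11 : (5 * C + D) + C = 2 * x1 + y1 + 4 * (C + D))
    (e20 : 2 * (5 * (5 * C + D) + C) + (5 * C + D) = 11 * x0 + 6 * y0 + 20 * (2 * C + D))
    (e21 : (5 * (5 * C + D) + C) + (5 * C + D) = 11 * x1 + 6 * y1 + 20 * (C + D)) :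
    x0 + 3 * D = C ∧ x1 + 4 * D = C ∧ y0 = C + 4 * D ∧ y1 = 5 * D := by
  omega

/-- Classification of the letter counts of the morphisms generating the language of `uu`. -/
lemma classification {ψ : Fin 3 → List (Fin 3)} {v : ℕ → Fin 3} (hψ : IsFixedPoint ψ v)
    (hL : Lang v = Lang uu) :
    ψ = (fun a => [a]) ∨ ∃ ν,
      (ψ 0).count 0 + 3 * (AB ν).2 = (AB ν).1 ∧ (ψ 0).count 1 + 4 * (AB ν).2 = (AB ν).1 ∧
      (ψ 1).count 0 = (AB ν).1 + 4 * (AB ν).2 ∧ (ψ 1).count 1 = 5 * (AB ν).2 ∧
      (ψ 2).count 0 = 2 * (AB ν).1 + (AB ν).2 ∧ (ψ 2).count 1 = (AB ν).1 + (AB ν).2 := by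
  have hpres : ∀ w, w ∈ Lang uu → app ψ w ∈ Lang uu := by
    intro w hw
    rw [← hL] at hw ⊢
    exact app_mem_Lang hψ hw
  have hpow : ∀ n, app ψ (X n) ++ app ψ (X n) ++ app ψ (X n) ++ app ψ (X n) ∈ Lang uu := by
    intro n
    have := hpres _ (X_power n)
    rwa [app_append, app_append, app_append] at this
  -- not all images are empty
  have hne : ¬ (ψ 0 = [] ∧ ψ 1 = [] ∧ ψ 2 = []) := by
    rintro ⟨e0, e1, e2⟩
    obtain ⟨n, hn⟩ := hψ.2 1
    have hz : ∀ w : List (Fin 3), app ψ w = [] := by
      intro w
      induction w with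
      | nil => rfl
      | cons b w ih =>
        rw [app_cons, ih]
        fin_cases b <;> simp [e0, e1, e2]
    rw [hz] at hn
    simp at hn
  have hpos : 1 ≤ (ψ 0).length + (ψ 1).length + (ψ 2).length := by
    by_contra hcon
    apply hne
    refine ⟨List.length_eq_zero_iff.1 (by omega), List.length_eq_zero_iff.1 (by omega),
      List.length_eq_zero_iff.1 (by omega)⟩
  have len0 := length_eq_count (ψ 0)
  have len1 := length_eq_count (ψ 1)
  have len2 := length_eq_count (ψ 2)
  have hn : ∀ n, 1 ≤ (X n).count 0 → 1 ≤ (X n).count 1 → 1 ≤ (X n).count 2 →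
      app ψ (X n) ≠ [] := by
    intro n g0 g1 g2 h
    have k0 := count_app ψ (X n) 0
    have k1 := count_app ψ (X n) 1
    have k2 := count_app ψ (X n) 2
    rw [h, List.count_nil] at k0 k1 k2
    simp only [eq_comm (a := 0), Nat.add_eq_zero_iff, Nat.mul_eq_zero] at k0 k1 k2
    have : (ψ 0).length = 0 ∧ (ψ 1).length = 0 ∧ (ψ 2).length = 0 := by
      obtain ⟨⟨a0, a1⟩, a2⟩ := k0
      obtain ⟨⟨b0, b1⟩, b2⟩ := k1
      obtain ⟨⟨d0, d1⟩, d2⟩ := k2
      have a0' := a0.resolve_left (by omega)
      have a1' := a1.resolve_left (by omega)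
      have a2' := a2.resolve_left (by omega)
      have b0' := b0.resolve_left (by omega)
      have b1' := b1.resolve_left (by omega)
      have b2' := b2.resolve_left (by omega)
      have d0' := d0.resolve_left (by omega)
      have d1' := d1.resolve_left (by omega)
      have d2' := d2.resolve_left (by omega)
      rw [len0, len1, len2, a0', a1', a2', b0', b1', b2', d0', d1', d2']
      simp
    omega
  obtain ⟨⟨x10, x11, x12⟩, ⟨x20, x21, x22⟩, ⟨x30, x31, x32⟩⟩ := X_counts
  have hn1 := hn 1 (by omega) (by omega) (by omega)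
  have hn2 := hn 2 (by omega) (by omega) (by omega)
  have hn3 := hn 3 (by omega) (by omega) (by omega)
  have c10 := count_app ψ (X 1) 0
  have c11 := count_app ψ (X 1) 1
  have c12 := count_app ψ (X 1) 2
  have c20 := count_app ψ (X 2) 0
  have c21 := count_app ψ (X 2) 1
  have c22 := count_app ψ (X 2) 2
  have c30 := count_app ψ (X 3) 0
  have c32 := count_app ψ (X 3) 2
  rw [x10, x11, x12] at c10 c11 c12
  rw [x20, x21, x22] at c20 c21 c22
  rw [x30, x31, x32] at c30 c32
  clear x10 x11 x12 x20 x21 x22 x30 x31 x32 hn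
  rcases power_lemma hn1 (hpow 1) with ⟨r10, r11, r12⟩ | ⟨α, r10, r11, r12⟩
  · exfalso
    rcases power_lemma hn2 (hpow 2) with ⟨r20, r21, r22⟩ | ⟨β, r20, r21, r22⟩
    · rw [r12] at c12
      rw [r10] at c10
      rw [r22] at c22
      clear c11 c20 c21 c30 c32 r21
      omega
    · have := AB_pos β
      rw [r10] at c10
      rw [r20] at c20
      clear c11 c12 c21 c22 c30 c32
      omega
  have hα := AB_pos α
  rw [r10] at c10
  rw [r11] at c11
  rw [r12] at c12
  rcases power_lemma hn2 (hpow 2) with ⟨r20, r21, r22⟩ | ⟨β, r20, r21, r22⟩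
  · exfalso
    rw [r20] at c20
    clear c11 c12 c21 c22 c30 c32
    omega
  rw [r20] at c20
  rw [r21] at c21
  rw [r22] at c22
  rcases power_lemma hn3 (hpow 3) with ⟨r30, r31, r32⟩ | ⟨γ, r30, r31, r32⟩
  · exfalso
    rw [r30] at c30
    clear c11 c12 c21 c22 c20 c32
    omega
  rw [r32] at c32
  have hAβ : 5 * (AB α).1 ≤ (AB β).1 := by
    clear c10 c11 c20 c21 c30 c32 r10 r11 r12 r20 r21 r22 r30 r31 r32 len0 len1 len2
    omega
  have hAγ : (AB γ).1 = 5 * (AB β).1 + (AB α).1 := by
    clear c10 c11 c20 c21 c30 r10 r11 r12 r20 r21 r22 r30 r31 r32 len0 len1 len2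
    omega
  have hβ := arith_idx hAβ hAγ
  subst hβ
  have hA1 : (AB (α + 1)).1 = 5 * (AB α).1 + (AB α).2 := rfl
  have hB1 : (AB (α + 1)).2 = (AB α).1 := rfl
  rw [hA1, hB1] at c20 c21
  rw [hA1] at c22
  clear c30 c32 r10 r11 r12 r20 r21 r22 r30 r31 r32 hAβ hAγ hA1 hB1
  have hcases := AB_cases α
  by_cases hz : ψ 2 = []
  · exfalso
    rw [hz] at c12 c22
    simp only [List.count_nil, Nat.mul_zero, Nat.add_zero, Nat.one_mul] at c12 c22
    exact arith_zero hcases c12 c22
  have hp0 := hpow 0
  have hX0 : app ψ (X 0) = ψ 2 := by simp [X, app]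
  rw [hX0] at hp0
  rcases power_lemma hz hp0 with ⟨z0, z1, z2⟩ | ⟨δ, z0, z1, z2⟩
  · left
    rw [z0] at c10 c20
    rw [z1] at c11 c21
    rw [z2] at c12 c22
    obtain ⟨g1, g2, g3, g4, g5, g6⟩ := arith_id hcases
      (by simpa using c10) (by simpa using c11) (by simpa using c12)
      (by simpa using c20) (by simpa using c21) (by simpa using c22)
    have s0 : ψ 0 = [0] := eq_singleton_of_count (by rw [len0, g1, g2, g3]) g1
    have s1 : ψ 1 = [1] := eq_singleton_of_count (by rw [len1, g4, g5, g6]) g5
    have s2 : ψ 2 = [2] := eq_singleton_of_count (by rw [len2, z0, z1, z2]) z2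
    funext a
    fin_cases a
    · exact s0
    · exact s1
    · exact s2
  · right
    refine ⟨δ, ?_⟩
    rw [z0] at c10 c20
    rw [z1] at c11 c21
    rw [z2] at c12 c22
    obtain ⟨b1, b2⟩ := arith_bounds (by simpa using c12) (by simpa using c22)
    have hαδ := arith_idx2 b1 b2
    subst hαδ
    have hA : (AB (δ + 1)).1 = 5 * (AB δ).1 + (AB δ).2 := rfl
    have hB : (AB (δ + 1)).2 = (AB δ).1 := rfl
    rw [hA, hB] at c10 c11 c20 c21
    obtain ⟨g1, g2, g3, g4⟩ := arith_final (by simpa using c10) (by simpa using c11)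
      (by simpa using c20) (by simpa using c21)
    exact ⟨g1, g2, g3, g4, z0, z1⟩


/-! ### Class `P` is impossible -/

lemma count_eq_of_conjugate {f g : Fin 3 → List (Fin 3)} (h : Conjugate f g) (a b : Fin 3) :
    (g a).count b = (f a).count b := by
  rcases h with ⟨w, hw⟩ | ⟨w, hw⟩
  · have := congrArg (List.count b) (hw a)
    rw [List.count_append, List.count_append] at this
    omega
  · have := congrArg (List.count b) (hw a)
    rw [List.count_append, List.count_append] at this
    omega

lemma parity_contra {C D x0 x1 y0 y1 z0 z1 p0 p1 : ℕ} (hCD : ¬ (C % 2 = 0 ∧ D % 2 = 0))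
    (hx0 : x0 + 3 * D = C) (hx1 : x1 + 4 * D = C) (hy0 : y0 = C + 4 * D) (hy1 : y1 = 5 * D)
    (hz0 : z0 = 2 * C + D) (hz1 : z1 = C + D)
    (hp : ¬ (p0 % 2 = 1 ∧ p1 % 2 = 1))
    (h0 : ¬ ((x0 + p0) % 2 = 1 ∧ (x1 + p1) % 2 = 1))
    (h1 : ¬ ((y0 + p0) % 2 = 1 ∧ (y1 + p1) % 2 = 1))
    (h2 : ¬ ((z0 + p0) % 2 = 1 ∧ (z1 + p1) % 2 = 1)) : False := by
  have e1 : x0 % 2 = (C + D) % 2 := by omega
  have e2 : x1 % 2 = C % 2 := by omega
  have e3 : y0 % 2 = C % 2 := by omega
  have e4 : y1 % 2 = D % 2 := by omega
  have e5 : z0 % 2 = D % 2 := by omega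
  clear hx0 hx1 hy0 hy1 hz0
  rcases Nat.mod_two_eq_zero_or_one C with c | c <;>
    rcases Nat.mod_two_eq_zero_or_one D with d | d <;>
    rcases Nat.mod_two_eq_zero_or_one p0 with a | a <;>
    rcases Nat.mod_two_eq_zero_or_one p1 with b | b <;> omega

lemma not_classP {ψ χ : Fin 3 → List (Fin 3)} {v : ℕ → Fin 3} (hψ : IsFixedPoint ψ v)
    (hL : Lang v = Lang uu) (hid : ψ ≠ fun a => [a]) (hconj : Conjugate ψ χ) : ¬ ClassP χ := by
  rintro ⟨p, hp, hχ⟩
  rcases classification hψ hL with h | ⟨ν, k1, k2, k3, k4, k5, k6⟩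
  · exact hid h
  · have q0 := palindrome_count (hχ 0).2
    have q1 := palindrome_count (hχ 1).2
    have q2 := palindrome_count (hχ 2).2
    have qp := palindrome_count hp
    rw [List.count_append, List.count_append, count_eq_of_conjugate hconj,
      count_eq_of_conjugate hconj] at q0 q1 q2
    exact parity_contra (AB_parity ν) k1 k2 k3 k4 k5 k6 qp q0 q1 q2

/-! ### `uu` is palindromic -/

/-- the conjugate `a ↦ aaaab`, `b ↦ aaaaab` of `gam` -/
def del : Bool → List Bool
  | false => [false, false, false, false, true]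
  | true => [false, false, false, false, false, true]

lemma gam_del (w : List Bool) :
    [false, false, false] ++ app gam w = app del w ++ [false, false, false] := by
  induction w with
  | nil => simp [app_nil]
  | cons x w ih =>
    have hx : [false, false, false] ++ gam x = del x ++ [false, false, false] := by
      cases x <;> rfl
    rw [app_cons, app_cons, ← List.append_assoc, hx, List.append_assoc, ih, List.append_assoc]

lemma del_reverse (w : List Bool) :
    (app del w).reverse ++ [true] = [true] ++ app del w.reverse := by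
  induction w with
  | nil => simp [app_nil]
  | cons x w ih =>
    have hx : (del x).reverse ++ [true] = [true] ++ del x := by cases x <;> rfl
    rw [app_cons, List.reverse_append, List.append_assoc, hx, ← List.append_assoc, ih,
      List.reverse_cons, app_append, app_singleton, List.append_assoc]

lemma iot_reverse (w : List Bool) :
    (app iot w).reverse ++ [2, 2, 2, 2] = [2, 2, 2, 2] ++ app iot w.reverse := by
  induction w with
  | nil => simp [app_nil]
  | cons x w ih =>
    have hx : (iot x).reverse ++ [2, 2, 2, 2] = [2, 2, 2, 2] ++ iot x := by cases x <;> rfl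
    rw [app_cons, List.reverse_append, List.append_assoc, hx, ← List.append_assoc, ih,
      List.reverse_cons, app_append, app_singleton, List.append_assoc]

lemma exists_palindrome (N : ℕ) : ∃ (y : Bool) (w : List Bool), N ≤ w.length ∧
    w.reverse = w ∧ y :: w ∈ Lang cc := by
  induction N with
  | zero => exact ⟨cc 0, [], by simp, rfl, 0, 1, by rw [slice_one]⟩
  | succ N ih =>
    obtain ⟨y, w, h1, h2, h3⟩ := ih
    refine ⟨false, [true] ++ app del w, ?_, ?_, ?_⟩
    · have : ∀ b, del b ≠ [] := by intro b; cases b <;> simp [del]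
      have := length_app_ge this w
      simp only [List.length_append, List.length_cons, List.length_nil]
      omega
    · rw [List.reverse_append, List.reverse_singleton, del_reverse, h2]
    · have h4 := app_mem_Lang cc_fixed h3
      rw [app_cons] at h4
      obtain ⟨z, hz⟩ : ∃ z, gam y = z ++ [false, true] ++ [false, false, false] := by
        cases y
        · exact ⟨[], rfl⟩
        · exact ⟨[false], rfl⟩
      rw [hz, List.append_assoc, gam_del] at h4
      refine mem_Lang_of_append (a := z) (b := [false, false, false]) ?_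
      simpa using h4

lemma iot_mem {w : List Bool} (h : w ∈ Lang cc) : app iot w ∈ Lang uu := by
  obtain ⟨i, n, rfl⟩ := h
  rw [slice_block iot_blocks]
  exact ⟨_, _, rfl⟩

lemma uu_palindromic : IsPalindromic uu := by
  intro hfin
  obtain ⟨M, hM⟩ := (hfin.image List.length).bddAbove
  obtain ⟨y, w, h1, h2, h3⟩ := exists_palindrome (M + 1)
  have h4 := iot_mem h3
  rw [app_cons] at h4
  obtain ⟨z, hz⟩ : ∃ z, iot y = z ++ [2, 2, 2, 2] := by
    cases y
    · exact ⟨[0, 1, 0], rfl⟩
    · exact ⟨[0, 1, 0, 1, 0], rfl⟩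
  have h5 : [2, 2, 2, 2] ++ app iot w ∈ Lang uu := by
    refine mem_Lang_of_append (a := z) (b := []) ?_
    rw [hz] at h4
    simpa using h4
  have h6 : ([2, 2, 2, 2] ++ app iot w).reverse = [2, 2, 2, 2] ++ app iot w := by
    rw [List.reverse_append, show ([2, 2, 2, 2] : List (Fin 3)).reverse = [2, 2, 2, 2] from rfl,
      iot_reverse, h2]
  have h7 := hM ⟨_, ⟨h5, h6⟩, rfl⟩
  have h8 := length_app_ge iot_ne w
  simp only [List.length_append, List.length_cons, List.length_nil] at h7
  omega

/-- There is a primitive morphism `phi` on a three-letter alphabet with a palindromic fixed point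
`u`, such that no morphism `ψ` other than the identity, having a fixed point `v` with the same
language as `u`, is in class `P`; no conjugate of such a `ψ` is in class `P` either. -/
theorem result : IsPrimitive phi ∧ ∃ u : ℕ → Fin 3, IsFixedPoint phi u ∧ IsPalindromic u ∧
    ∀ (ψ : Fin 3 → List (Fin 3)) (v : ℕ → Fin 3), ψ ≠ (fun a => [a]) →
      IsFixedPoint ψ v → Lang v = Lang u →
        ¬ ClassP ψ ∧ ∀ χ : Fin 3 → List (Fin 3), Conjugate ψ χ → ¬ ClassP χ := by
  refine ⟨⟨2, by norm_num, by decide⟩, uu, uu_fixed, uu_palindromic, ?_⟩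
  intro ψ v hid hψ hL
  exact ⟨not_classP hψ hL hid (Or.inl ⟨[], by simp⟩), fun χ hχ => not_classP hψ hL hid hχ⟩

end Pool.Agent.Results.MP_6957f6_co.Disproof
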