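import Pool.Agent.H23.HKS.Word
import Pool.Agent.H23.HKS.Hole
import Pool.Agent.H23.HKS.Late
import Pool.Agent.H23.HKS.Img1
import Pool.Agent.H23.HKS.Img2
import Pool.Agent.H23.HKS.Prim
import Pool.Agent.H23.HKS.Final
import Pool.Agent.H23.HKS.Hole2
import Pool.Agent.H23.HKS.Aper
import Pool.Agent.H23.HKS.IdemP
import Pool.Agent.H23.HKS.Exp
import Pool.Agent.H23.HKS.Gap
import Pool.Agent.H23.HKS.Per
import Pool.Agent.H41.HKSE.Sharp

/-!
# The weak form of the class P question fails (MP_6957f6_co, Q2)

Let `w` be the fixed point of the primitive morphism `a ↦ aaba`, `b ↦ babb` starting with `a` and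
`u` its image by `a ↦ 012`, `b ↦ 210`.  Then `u` is a palindromic primitive morphic word, and for
all morphisms `g`, `f`, each conjugate to a class P morphism, and every infinite word `v` with
`g (v) = v` and `L (f (v)) = L (u)`: `g` is not primitive, for every `i` the lengths
`|f (g^n (v_i))|` stay bounded, and for every `n` infinitely many `i` have `|f (g^n (v_i))| = 1`.
-/

namespace Pool.Agent.Results.MP_6957f6_co.WeakFormFails

open Pool.Agent.H23.HKS

theorem result : ∃ (w : ℕ → Bool) (u : ℕ → Fin 3),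
    IsPrimitive phi0 ∧ w 0 = true ∧ IsImage phi0 w w ∧ IsImage mu w u ∧ IsPalindromic u ∧
    ∀ (B : Type) [Finite B] (v : ℕ → B) (g g' : B → List B) (f f' : B → List (Fin 3))
      (y : ℕ → Fin 3), IsImage g v v → Conjugate g g' → ClassP g' → Conjugate f f' → ClassP f' →
      IsImage f v y → Lang y = Lang u →
      ¬ IsPrimitive g ∧
        (∀ i, ∃ C, ∀ n, (app f ((app g)^[n] [v i])).length ≤ C) ∧
        ∀ n N : ℕ, ∃ i, N ≤ i ∧ (app f ((app g)^[n] [v i])).length = 1 := by
  refine ⟨V, u, expl.1, by rw [V]; rfl, expl.2.1, expl.2.2, pal, ?_⟩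
  intro B _ v g g' f f' y hv h1 h2 h3 h4 hy hL
  have hcov : CoverSt2 := cover pos (teConj exImage pos) (teMap exImage pos) comp decomp
  have key : ∀ n N : ℕ, ∃ i, N ≤ i ∧ (app f ((app g)^[n] [v i])).length = 1 := by
    intro n N
    by_contra hcon
    push Not at hcon
    exact final (hole s_eq) (late v_eq s_eq) hcov B v g g' f f' y hv h1 h2 h3 h4 hy hL n N hcon
  refine ⟨fun hprim => ?_, fun i => ?_, key⟩
  · obtain ⟨n, hn⟩ := prim v_eq pos B v g f y hv hprim hy hL
    obtain ⟨i, _, hi⟩ := key n 0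
    have := hn i
    omega
  · exact Pool.Agent.H41.HKSE.degenerateE hole2 aper idem expPer gap (per pos) (late v_eq s_eq)
      pos (teConj exImage pos) (teMap exImage pos) comp decomp B v g g' f f' y hv h1 h2 h3 h4 hy
      hL i

end Pool.Agent.Results.MP_6957f6_co.WeakFormFails
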